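import Pool.Agent.Run7.h95.LF.Full
import Pool.Agent.Run7.h95.LF.Dyad
import Pool.Agent.Results.MP_5dd4bb_nt.AlmostAllModuli

/-!
# The lower bound for the variance of primes, for ALL moduli near the values of generic linear forms

Let `v_i`, `i` in a countable set, be vectors in `ℝ^k` such that for every `ε > 0` at most `C X ^ (τ + ε)` of them have norm at
most `X`; for instance all `(b_1^(n_1), …, b_k^(n_k))` with `b_j > 1` (`τ = 0`), all `(1, n, …, n^d)` (`τ = 1 / d`), or all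
`(n_1^(a_1), …, n_k^(a_k))` (`τ` the sum of the `1 / a_j`).
For every `ε > 0` there is `η > 0` such that for all such families and `0 ≤ θ < 1`, for all `α` in `ℝ^k` outside a set of
Hausdorff dimension at most `k - 1 + (1 - η + τ) / (1 - θ)` (less than `k`, hence for almost all `α`, if `θ + τ < η`), all `w`
and all but finitely many `i`, ALL moduli `q` with `|q - (α_1 v_(i,1) + … + α_k v_(i,k))| ≤ w |v_i|^θ` satisfy
`G(X, q) ≥ X (log q - 1/2 log X - ε log X)` for ALL real `X ≥ q` at once. If `τ = 0`, then for almost all `α` and every `ε > 0`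
there is `θ > 0` such that this holds for all moduli in the windows of radius `|v_i|^θ`. (The starting file `SparseModuli`
treats single moduli `⌊α n^c⌋`.)

Proof. The starting theorem `AlmostAllModuli` bounds the number of the exceptional moduli in `(K, 2 K]` by `K ^ (1 - κ)`; the
`α` with an exceptional modulus in the window of `v_i` form slabs, which are covered by few small cubes
(`Pool.Agent.N251.LF`).
-/

set_option autoImplicit false

open Finset MeasureTheory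

namespace Pool.Agent.Results.MP_5dd4bb_nt.GenericLinearForms

open Pool.Agent.N251.LF (Fam Sq examples)
open Run7.h95.LF (full_nat count_dyadic)

/-- `ψ(X; Q, A)`: the sum of `Λ(n)` over the `n ≤ X` with `n ≡ A mod Q`. -/
noncomputable def psi (X : ℝ) (Q A : ℕ) : ℝ :=
  ∑ n ∈ (Icc 1 ⌊X⌋₊).filter (fun n => n ≡ A [MOD Q]), ArithmeticFunction.vonMangoldt n

/-- `G(X, Q)`: the sum of `(ψ(X; Q, A) - X/φ(Q))²` over the reduced residue classes `A` modulo `Q`. -/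
noncomputable def G (X : ℝ) (Q : ℕ) : ℝ :=
  ∑ A ∈ (range Q).filter (fun A => A.Coprime Q), (psi X Q A - X / Nat.totient Q) ^ 2

/-- `q ≥ 1` and `G(X, q) ≥ X (log q - 1/2 log X - ε log X)` for all real `X ≥ q`. -/
def Good (ε : ℝ) (q : ℕ) : Prop :=
  1 ≤ q ∧ ∀ X : ℝ, (q : ℝ) ≤ X → X * (Real.log q - 1 / 2 * Real.log X - ε * Real.log X) ≤ G X q

/-- for all but finitely many `i` all the moduli in the window of radius `w ‖v_i‖ ^ θ` around `∑ α_l v_(i,l)` are good -/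
def AllGood {k : ℕ} {ι : Type} (v : ι → Fin k → ℝ) (ε θ w : ℝ) (α : Fin k → ℝ) : Prop :=
  {i | ¬ ∀ q : ℕ, |(q : ℝ) - ∑ l, α l * v i l| ≤ w * ‖v i‖ ^ θ → Good ε q}.Finite

lemma good_mono {ε ε' : ℝ} (h : ε' ≤ ε) {q : ℕ} (hq : Good ε' q) : Good ε q := by
  refine ⟨hq.1, fun X hX => le_trans ?_ (hq.2 X hX)⟩
  have hq1 : (1 : ℝ) ≤ q := by exact_mod_cast hq.1
  have hX0 : 0 ≤ X := by linarith
  have hl : 0 ≤ Real.log X := Real.log_nonneg (by linarith)
  apply mul_le_mul_of_nonneg_left _ hX0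
  have := mul_le_mul_of_nonneg_right h hl
  linarith

lemma part1 (ε : ℝ) (hε : 0 < ε) : ∃ η : ℝ, 0 < η ∧ η ≤ 1 / 2 ∧
    ∀ (k : ℕ) (ι : Type) (v : ι → Fin k → ℝ) (τ θ : ℝ), 0 ≤ τ → θ < 1 → Fam v τ →
      ∃ E : Set (Fin k → ℝ), dimH E ≤ ENNReal.ofReal ((k : ℝ) - 1 + (1 - η + τ) / (1 - θ)) ∧
        (1 ≤ k → θ + τ < η → dimH E < (k : ENNReal) ∧ volume E = 0) ∧
        ∀ α, α ∉ E → ∀ w : ℝ, AllGood v ε θ w α := by
  classical
  obtain ⟨κ, K₀, hκ, hK⟩ := AlmostAllModuli.result ε hε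
  obtain ⟨C, hC, hcount⟩ := count_dyadic {q : ℕ | 1 ≤ q ∧ ¬ Good ε q} hκ ⌈K₀⌉₊ (by
    intro K hK0
    have hsub : (Ioc K (2 * K)).filter (fun q => q ∈ {q : ℕ | 1 ≤ q ∧ ¬ Good ε q}) ⊆
        (Ioc K (2 * K)).filter (fun q : ℕ => ∃ X : ℝ, (q : ℝ) ≤ X ∧
          G X q < X * (Real.log q - 1 / 2 * Real.log X - ε * Real.log X)) := by
      intro q hq
      rw [mem_filter] at hq ⊢
      refine ⟨hq.1, ?_⟩
      obtain ⟨h1, h2⟩ := hq.2
      unfold Good at h2
      push Not at h2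
      exact h2 h1
    have h1 : (((Ioc K (2 * K)).filter (fun q => q ∈ {q : ℕ | 1 ≤ q ∧ ¬ Good ε q})).card : ℝ) ≤
        (((Ioc K (2 * K)).filter (fun q : ℕ => ∃ X : ℝ, (q : ℝ) ≤ X ∧
          G X q < X * (Real.log q - 1 / 2 * Real.log X - ε * Real.log X))).card : ℝ) := by
      exact_mod_cast card_le_card hsub
    have h2 : (((Ioc K (2 * K)).filter (fun q : ℕ => ∃ X : ℝ, (q : ℝ) ≤ X ∧
          G X q < X * (Real.log q - 1 / 2 * Real.log X - ε * Real.log X))).card : ℝ) ≤ (K : ℝ) ^ (1 - κ) := by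
      refine le_trans (le_of_eq ?_) (hK K (Nat.ceil_le.1 hK0))
      congr 2
    exact le_trans (le_of_eq (by congr!)) (h1.trans h2))
  refine ⟨min κ (1 / 2), lt_min hκ (by norm_num), min_le_right _ _, fun k ι v τ θ hτ hθ hv => ?_⟩
  have h12 : min κ (1 / 2) ≤ 1 / 2 := min_le_right _ _
  obtain ⟨E, h1, h2, h3⟩ := full_nat {q : ℕ | 1 ≤ q ∧ ¬ Good ε q} v (s := 1 - min κ (1 / 2)) (by linarith) hτ hθ hv (by
    intro ε' hε'
    refine ⟨C, fun X hX => ?_⟩
    have hX1 : (1 : ℝ) ≤ X := by exact_mod_cast hX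
    refine le_trans (le_of_eq ?_) ((hcount X hX).trans
      (mul_le_mul_of_nonneg_left (Real.rpow_le_rpow_of_exponent_le hX1 (by linarith)) hC))
    congr!)
  refine ⟨E, h1, fun hk hlt => h2 hk (by linarith), fun α hα w => (h3 α hα w).subset ?_⟩
  intro i hi
  simp only [Set.mem_ofPred_eq] at hi ⊢
  push Not at hi
  obtain ⟨q, hq, hbad⟩ := hi
  refine ⟨q, ?_, hq⟩
  rcases Nat.eq_zero_or_pos q with h0 | h0
  · exact Or.inl h0
  · exact Or.inr ⟨h0, hbad⟩

/-- **Theorem.** (1) For every `ε > 0` there is `η` in `(0, 1/2]` with the following property. Let the family `v` of vectors in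
`ℝ^k` have at most `C X ^ (τ + δ)` members of norm at most `X`, for every `δ > 0`, and `0 ≤ θ < 1`. There is a set `E` of
Hausdorff dimension at most `k - 1 + (1 - η + τ) / (1 - θ)` (less than `k`, and of measure zero, if `θ + τ < η`) such that for
each `α` in `ℝ^k` outside `E`, each `w` and all but finitely many `i`, ALL moduli `q` with
`|q - ∑ α_l v_(i,l)| ≤ w ‖v_i‖ ^ θ` satisfy `G(X, q) ≥ X (log q - 1/2 log X - ε log X)` for ALL real `X ≥ q`. (2) If `τ = 0`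
and `k ≥ 1`, then for almost all `α` and every `ε > 0` there is `θ > 0` such that this holds for all the moduli in all but
finitely many of the windows of radius `‖v_i‖ ^ θ`. (3) Examples of families. -/
theorem result :
    (∀ ε : ℝ, 0 < ε → ∃ η : ℝ, 0 < η ∧ η ≤ 1 / 2 ∧
      ∀ (k : ℕ) (ι : Type) (v : ι → Fin k → ℝ) (τ θ : ℝ), 0 ≤ τ → 0 ≤ θ → θ < 1 → Fam v τ →
        ∃ E : Set (Fin k → ℝ), dimH E ≤ ENNReal.ofReal ((k : ℝ) - 1 + (1 - η + τ) / (1 - θ)) ∧
          (1 ≤ k → θ + τ < η → dimH E < (k : ENNReal) ∧ volume E = 0) ∧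
          ∀ α, α ∉ E → ∀ w : ℝ, AllGood v ε θ w α) ∧
    (∀ (k : ℕ) (ι : Type) (v : ι → Fin k → ℝ), 1 ≤ k → Fam v 0 →
      ∀ᵐ α : Fin k → ℝ, ∀ ε : ℝ, 0 < ε → ∃ θ : ℝ, 0 < θ ∧ AllGood v ε θ 1 α) ∧
    (∀ d : ℕ, 1 ≤ d → Fam (fun (n : ℕ) (j : Fin (d + 1)) => (n : ℝ) ^ (j : ℕ)) (1 / d)) ∧
    (∀ (k : ℕ) (b : Fin k → ℝ), (∀ j, 1 < b j) → Fam (fun (n : Fin k → ℕ) (j : Fin k) => b j ^ n j) 0) ∧
    (∀ (k : ℕ) (a : Fin k → ℝ), (∀ j, 0 < a j) →
      Fam (fun (n : Fin k → ℕ) (j : Fin k) => (n j : ℝ) ^ a j) (∑ j, 1 / a j)) ∧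
    ∀ (k : ℕ) (u : Fin k → ℕ → ℝ) (τ : Fin k → ℝ), (∀ j, Sq (u j) (τ j)) →
      Fam (fun (n : Fin k → ℕ) (j : Fin k) => u j (n j)) (∑ j, τ j) := by
  refine ⟨fun ε hε => ?_, fun k ι v hk hv => ?_, examples⟩
  · obtain ⟨η, h0, h1, h⟩ := part1 ε hε
    exact ⟨η, h0, h1, fun k ι v τ θ hτ _ hθ hv => h k ι v τ θ hτ hθ hv⟩
  · have hall : ∀ j : ℕ, ∃ (θ : ℝ) (E : Set (Fin k → ℝ)), 0 < θ ∧ volume E = 0 ∧
        ∀ α, α ∉ E → AllGood v (1 / ((j : ℝ) + 1)) θ 1 α := by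
      intro j
      obtain ⟨η, h0, h1, h⟩ := part1 (1 / ((j : ℝ) + 1)) (by positivity)
      obtain ⟨E, -, h3, h4⟩ := h k ι v 0 (η / 2) le_rfl (by linarith) hv
      exact ⟨η / 2, E, by linarith, (h3 hk (by linarith)).2, fun α hα => h4 α hα 1⟩
    choose θ E hθ hE1 hE2 using hall
    have hnull : volume (⋃ j, E j) = 0 := measure_iUnion_null_iff.2 hE1
    rw [ae_iff]
    refine measure_mono_null (fun α hα => ?_) hnull
    by_contra hcon
    rw [Set.mem_iUnion] at hcon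
    push Not at hcon
    refine hα fun ε hε => ?_
    obtain ⟨j, hj⟩ := exists_nat_one_div_lt hε
    refine ⟨θ j, hθ j, Set.Finite.subset (hE2 j α (hcon j)) ?_⟩
    intro i hi
    simp only [Set.mem_ofPred_eq] at hi ⊢
    intro hgood
    exact hi fun q hq => good_mono hj.le (hgood q hq)

end Pool.Agent.Results.MP_5dd4bb_nt.GenericLinearForms
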