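import Pool.Agent.Run7.h27.FG.Clean

/-!
# The Friedlander-Goldston formula for all the multiples of the moduli near the values of generalised polynomials at primes

Let `f` be a generalised polynomial whose largest exponent `c` is positive and not an integer, and let `z` be any real number
with `|z| ≤ X ^ c`. For all the primes `X < p ≤ 2 X` with at most `X / log ^ U X` exceptions the formula
`G(x,Q) = x log Q - C_Q x + O(x / log ^ (ρ/4) Q)` holds for ALL the real `x` with `Q log ^ ρ Q ≤ x ≤ Q log ^ T Q` and for ALL the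
moduli `Q = h q`, `1 ≤ h ≤ log ^ J X`, `q` an integer at a distance of at most `log ^ W X` from `f(p) + z`.

The exponential sums over primes with the phase `f`, uniform in the coefficients, are from helper844's library
`Pool.Agent.Run7.h844.RP`; the transfer theorem for the second main term of the variance and the bound for the arithmetic factor of
the error term are in `Pool.Agent.Run7.h27.FG` (`main2`, `t_fg`, `thin_lam`).
-/

set_option autoImplicit false

namespace Pool.Agent.Results.MP_5dd4bb_nt.VarianceAtPrimes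

open Finset

/-- The generalised polynomial `∑ a x * t ^ x`, `x ∈ F`, with real exponents and coefficients. -/
noncomputable def genPoly (F : Finset ℝ) (a : ℝ → ℝ) (t : ℝ) : ℝ := ∑ x ∈ F, a x * t ^ x

/-- `c` is the largest exponent; it is positive and not an integer, and its coefficient is not zero. -/
def Leading (F : Finset ℝ) (a : ℝ → ℝ) (c : ℝ) : Prop :=
  c ∈ F ∧ (∀ x ∈ F, x ≤ c) ∧ 0 < c ∧ (∀ m : ℕ, c ≠ m) ∧ a c ≠ 0

/-- `ψ(x; q, a)`, the sum of `Λ(n)` over the `1 ≤ n ≤ x` with `n ≡ a (mod q)`, for `0 ≤ a < q`. -/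
noncomputable def ψ (x : ℝ) (q a : ℕ) : ℝ :=
  ∑ n ∈ (Icc 1 ⌊x⌋₊).filter (fun n => n % q = a), ArithmeticFunction.vonMangoldt n

/-- `G(x, Q)`, the sum of `(ψ(x; Q, a) - x / φ(Q)) ^ 2` over the reduced residue classes `a` modulo `Q`. -/
noncomputable def G (x : ℝ) (Q : ℕ) : ℝ :=
  ∑ a ∈ (range Q).filter (fun a => Nat.Coprime a Q), (ψ x Q a - x / (Nat.totient Q : ℝ)) ^ 2

/-- `C_Q`, the sum of `log p / (p - 1)` over the primes `p` dividing `Q`, plus Euler's constant, plus `log (2 π)`. -/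
noncomputable def C (Q : ℕ) : ℝ :=
  ∑ p ∈ Q.primeFactors, Real.log p / ((p : ℝ) - 1) + Real.eulerMascheroniConstant + Real.log (2 * Real.pi)

/-- `|G(x,Q) - (x log Q - C_Q x)| ≤ x / log ^ (ρ/4) Q` for all real `x` with `Q log ^ ρ Q ≤ x ≤ Q log ^ T Q`. -/
def Formula (ρ : ℝ) (T Q : ℕ) : Prop :=
  ∀ x : ℝ, Q * Real.log Q ^ ρ ≤ x → x ≤ Q * Real.log Q ^ T →
    |G x Q - (x * Real.log Q - C Q * x)| ≤ x / Real.log Q ^ (ρ / 4)

/-- The formula for all the multiples `h q`, `1 ≤ h ≤ H`, of all the integers `q > 0` at a distance of at most `R` from the real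
number `y`. -/
def Near (ρ : ℝ) (T : ℕ) (H R y : ℝ) : Prop :=
  ∀ q : ℕ, 0 < q → |(q : ℝ) - y| ≤ R → ∀ h : ℕ, 1 ≤ h → (h : ℝ) ≤ H → Formula ρ T (h * q)

open Classical in
/-- Let `f` be a generalised polynomial whose largest exponent `c` is positive and not an integer, and let `ρ > 0`, `J`, `T`,
`W`, `U` be fixed. If `X` is large and `z` is any real number with `|z| ≤ X ^ c`, then all the primes `X < p ≤ 2 X`, with at most
`X / log ^ U X` exceptions, have the following property: for ALL the multiples `Q = h q` with `1 ≤ h ≤ log ^ J X` of ALL the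
integers `q > 0` at a distance of at most `log ^ W X` from `f(p) + z` one has `|G(x,Q) - (x log Q - C_Q x)| ≤ x / log ^ (ρ/4) Q`
for all real `x` with `Q log ^ ρ Q ≤ x ≤ Q log ^ T Q`. -/
theorem result (F : Finset ℝ) (a : ℝ → ℝ) (c : ℝ) (hF : Leading F a c) (ρ : ℝ) (hρ : 0 < ρ) (J T W U : ℕ) :
    ∃ X₀ : ℕ, ∀ X : ℕ, X₀ ≤ X → ∀ z : ℝ, |z| ≤ (X : ℝ) ^ c →
      (((Ioc X (2 * X)).filter fun p : ℕ =>
        p.Prime ∧ ¬ Near ρ T (Real.log X ^ J) (Real.log X ^ W) (genPoly F a p + z)).card : ℝ) ≤ X / Real.log X ^ U :=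
  Pool.Agent.Run7.h27.FG.clean_primes F c hF.1 hF.2.2.2.1 hF.2.2.1 hF.2.1 a hF.2.2.2.2 ρ hρ T J W U

end Pool.Agent.Results.MP_5dd4bb_nt.VarianceAtPrimes
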