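import Pool.Agent.Run7.h27.FG.Clean

/-!
# The Friedlander-Goldston formula for all the multiples of all the moduli near `lam n * x + c n`, for almost every `x` of every
measure with Fourier decay

Let `N n ≥ exp (n ^ η)`, and let `lam n`, `c n` be real numbers with `N n / log ^ S (N n) ≤ lam n ≤ B N n` and
`|c n| ≤ B N n`. A real number `x` is called generic if for all `ρ > 0` and all `T`, `J`, `W` and for all large `n` the formula
`G(X,Q) = X log Q - C_Q X + O(X / log ^ (ρ/4) Q)` holds for ALL the real `X` with `Q log ^ ρ Q ≤ X ≤ Q log ^ T Q` and for ALL the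
moduli `Q = h q`, where `1 ≤ h ≤ log ^ J (N n)` and `q` is an integer at a distance of at most `log ^ W (N n)` from
`lam n * x + c n`. So for these moduli and heights `G(X,Q) - X log Q + C_Q X = o(X)`, with both main terms of the problem.

Almost every `x` is generic with respect to EVERY finite Borel measure with bounded support whose Fourier transform is
`O (|ξ| ^ (-δ))` for some `δ > 0`: the set of the real numbers which are not generic has Fourier dimension zero.

The proof: a transfer theorem for the second main term of the variance and families of moduli with a thin large spectrum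
(`Pool.Agent.Run7.h27.FG.main2`, `t_fg`), a bound for the arithmetic factor of the error term at almost all the members
(`Pool.Agent.Run7.h27.FG.thin_lam`), and the passage from finite families of reals to measures (`Pool.Agent.Run7.h582.FM`).
-/

set_option autoImplicit false

namespace Pool.Agent.Results.MP_5dd4bb_nt.VarianceFourierDecay

open Finset Filter MeasureTheory

/-- `ψ(X; q, a)`, the sum of `Λ(n)` over the `1 ≤ n ≤ X` with `n ≡ a (mod q)`, for `0 ≤ a < q`. -/
noncomputable def ψ (X : ℝ) (q a : ℕ) : ℝ :=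
  ∑ n ∈ (Icc 1 ⌊X⌋₊).filter (fun n => n % q = a), ArithmeticFunction.vonMangoldt n

/-- `G(X, Q)`, the sum of `(ψ(X; Q, a) - X / φ(Q)) ^ 2` over the reduced residue classes `a` modulo `Q`. -/
noncomputable def G (X : ℝ) (Q : ℕ) : ℝ :=
  ∑ a ∈ (range Q).filter (fun a => Nat.Coprime a Q), (ψ X Q a - X / (Nat.totient Q : ℝ)) ^ 2

/-- `C_Q`, the sum of `log p / (p - 1)` over the primes `p` dividing `Q`, plus Euler's constant, plus `log (2 π)`. -/
noncomputable def C (Q : ℕ) : ℝ :=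
  ∑ p ∈ Q.primeFactors, Real.log p / ((p : ℝ) - 1) + Real.eulerMascheroniConstant + Real.log (2 * Real.pi)

/-- `|G(X,Q) - (X log Q - C_Q X)| ≤ X / log ^ (ρ/4) Q` for all real `X` with `Q log ^ ρ Q ≤ X ≤ Q log ^ T Q`. -/
def Formula (ρ : ℝ) (T Q : ℕ) : Prop :=
  ∀ X : ℝ, Q * Real.log Q ^ ρ ≤ X → X ≤ Q * Real.log Q ^ T →
    |G X Q - (X * Real.log Q - C Q * X)| ≤ X / Real.log Q ^ (ρ / 4)

/-- `N n ≥ exp (n ^ η)`, `|c n| ≤ B N n` and `N n / log ^ S (N n) ≤ lam n ≤ B N n` for large `n`. -/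
def Scales (η : ℝ) (B S : ℕ) (N : ℕ → ℕ) (lam c : ℕ → ℝ) : Prop :=
  ∀ᶠ n : ℕ in atTop, Real.exp ((n : ℝ) ^ η) ≤ N n ∧ |c n| ≤ B * N n ∧ lam n ≤ B * N n ∧
    (N n : ℝ) ≤ lam n * Real.log (N n) ^ S

/-- For all `ρ > 0`, `T`, `J`, `W` and all large `n` the formula holds for all the multiples `h q`, `1 ≤ h ≤ log ^ J (N n)`, of
all the integers `q ≥ 1` at a distance of at most `log ^ W (N n)` from `lam n * x + c n`. -/
def Generic (N : ℕ → ℕ) (lam c : ℕ → ℝ) (x : ℝ) : Prop :=
  ∀ ρ : ℝ, 0 < ρ → ∀ T J W : ℕ, ∀ᶠ n : ℕ in atTop, ∀ q : ℕ, 1 ≤ q →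
    |(q : ℝ) - (lam n * x + c n)| ≤ Real.log (N n) ^ W → ∀ h : ℕ, 1 ≤ h → (h : ℝ) ≤ Real.log (N n) ^ J →
      Formula ρ T (h * q)

/-- `μ` is a finite Borel measure with bounded support and its Fourier transform `ξ ↦ ∫ exp (i ξ t) dμ (t)` is
`O (|ξ| ^ (-δ))` for some `δ > 0`. -/
def FourierDecay (μ : Measure ℝ) : Prop :=
  IsFiniteMeasure μ ∧ (∃ R : ℝ, μ (Set.Icc (-R) R)ᶜ = 0) ∧ ∃ C δ : ℝ, 0 < δ ∧ ∀ ξ : ℝ, ξ ≠ 0 →
    ‖∫ t : ℝ, Complex.exp (((ξ * t : ℝ) : ℂ) * Complex.I) ∂μ‖ ≤ C * |ξ| ^ (-δ)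

/-- Let `η > 0`, `B`, `S` and sequences `N`, `lam`, `c` with `Scales η B S N lam c` be given. Then almost every real number
`x` is generic with respect to every measure `μ` with `FourierDecay μ`: for all `ρ > 0`, all `T`, `J`, `W` and all large `n`,
for ALL the moduli `Q = h q` with `1 ≤ h ≤ log ^ J (N n)` and an integer `q ≥ 1`, `|q - (lam n * x + c n)| ≤ log ^ W (N n)`, and
for ALL real `X` with `Q log ^ ρ Q ≤ X ≤ Q log ^ T Q` one has `|G(X,Q) - (X log Q - C_Q X)| ≤ X / log ^ (ρ/4) Q`. -/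
theorem result (η : ℝ) (hη : 0 < η) (B S : ℕ) (N : ℕ → ℕ) (lam c : ℕ → ℝ)
    (hS : Scales η B S N lam c) (μ : Measure ℝ) (hμ : FourierDecay μ) :
    ∀ᵐ x ∂μ, Generic N lam c x :=
  Pool.Agent.Run7.h27.FG.ae_clean μ hμ η hη B S N lam c hS

end Pool.Agent.Results.MP_5dd4bb_nt.VarianceFourierDecay
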