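import Pool.Agent.Run7.h27.FG.Fam

/-!
# The asymptotic formula `G(X,k) = X log k - C_k X + O(...)` with both main terms, for almost all members of thin families of
moduli in short intervals

The formula is the one of the problem, with both main terms and an explicit error term; it is uniform in the heights `X` with
`k ≤ X ≤ k log^κ k` (this is the upper end of the range of the moduli; the range `k < X^(1-ε)` of the problem is NOT reached).
The moduli `k` are all the neighbours of almost all the members of ANY finite family of integers whose exponential sums are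
small off few arcs of length `log^D N / H`, where `H ≥ N^(1/3) log^C N`; such a family may be thin and lie in an interval
of length `H`. The correlations of the primes along the family are from project MK (`Run7.h794.MK.law_all`, no hypotheses),
the sum over the multiples of `k` up to `X` (the second main term) is in `Run7.h27.FG`.
-/

set_option autoImplicit false

namespace Pool.Agent.Results.MP_5dd4bb_nt.VarianceShortFamilies

open Finset Polynomial

/-- `e(x) = exp (2 π i x)` -/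
noncomputable def e (x : ℝ) : ℂ := Complex.exp (2 * Real.pi * Complex.I * x)

/-- `ψ(X; k, a)`, the sum of `Λ(n)` over the `1 ≤ n ≤ X` with `n ≡ a (mod k)`, for `0 ≤ a < k`. -/
noncomputable def ψ (X : ℝ) (k a : ℕ) : ℝ :=
  ∑ n ∈ (Icc 1 ⌊X⌋₊).filter (fun n => n % k = a), ArithmeticFunction.vonMangoldt n

/-- `G(X, k)`, the sum of `(ψ(X; k, a) - X / φ(k)) ^ 2` over the reduced residue classes `a` modulo `k`. -/
noncomputable def G (X : ℝ) (k : ℕ) : ℝ :=
  ∑ a ∈ (range k).filter (fun a => Nat.Coprime a k), (ψ X k a - X / (Nat.totient k : ℝ)) ^ 2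

/-- `C_k`, the sum of `log p / (p - 1)` over the primes `p` dividing `k`, plus Euler's constant, plus `log (2 π)`. -/
noncomputable def C (k : ℕ) : ℝ :=
  ∑ p ∈ k.primeFactors, Real.log p / ((p : ℝ) - 1) + Real.eulerMascheroniConstant + Real.log (2 * Real.pi)

/-- `λ(k)`, the product of `1 + 4 p ^ (-2/3)` over the primes `p` dividing `k`. -/
noncomputable def lam (k : ℕ) : ℝ := ∏ p ∈ k.primeFactors, (1 + 4 * (p : ℝ) ^ (-(2 / 3) : ℝ))

/-- Off at most `log^S N` arcs of the circle, of length `log^D N / H` (on both sides of the points of `Γ`), the exponential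
sums of the family are at most `#ι / log^V N`. -/
def Narrow (V S D N H : ℕ) {ι : Type} [Fintype ι] (v : ι → ℤ) : Prop :=
  ∃ Γ : Finset ℝ, (Γ.card : ℝ) ≤ Real.log N ^ S ∧
    ∀ α : ℝ, (∀ γ ∈ Γ, ∀ m : ℤ, Real.log N ^ D / H < |α - γ - m|) → ‖∑ i, e ((v i : ℝ) * α)‖ ≤ Fintype.card ι / Real.log N ^ V

/-- The formula at `n`: for ALL moduli `k` with `|k - n| ≤ log^W N` and `k ≥ N / log^κ N` and ALL real `X` with
`k ≤ X ≤ k log^κ N`, `|G(X,k) - (X log k - C_k X)| ≤ K X (λ(k) (k / X) ^ (1/3) + 1 / log^A N)`. -/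
def Formula (K : ℝ) (κ A W N : ℕ) (n : ℤ) : Prop :=
  ∀ k : ℕ, |(k : ℝ) - n| ≤ Real.log N ^ W → (N : ℝ) ≤ k * Real.log N ^ κ →
    ∀ X : ℝ, (k : ℝ) ≤ X → X ≤ k * Real.log N ^ κ →
      |G X k - (X * Real.log k - C k * X)| ≤ K * (X * (lam k * (k / X) ^ (1 / 3 : ℝ) + 1 / Real.log N ^ A))

open Classical in
/-- The formula holds at all but at most `#ι / log^U N` members of the family. -/
def AlmostAll (K : ℝ) (κ A W U N : ℕ) {ι : Type} [Fintype ι] (v : ι → ℤ) : Prop :=
  ((univ.filter (fun i : ι => ¬ Formula K κ A W N (v i))).card : ℝ) ≤ Fintype.card ι / Real.log N ^ U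

/-- The Fourier coefficients of the residues `y i`, `i ∈ s`, modulo `q` at the nonzero frequencies are at most
`η` times the number of the residues: `|∑ i ∈ s, e(h y_i / q)| ≤ η |s|` for all `h ≠ 0` modulo `q`. -/
def Flat {ι : Type} (q : ℕ) [NeZero q] (η : ℝ) (s : Finset ι) (y : ι → ZMod q) : Prop :=
  ∀ h : ZMod q, h ≠ 0 → ‖∑ i ∈ s, (ZMod.stdAddChar (h * y i) : ℂ)‖ ≤ η * s.card

/-- For all `κ`, `A` there is a constant `K > 0` with the following properties.

**(1)** Let `B`, `W`, `U` be fixed. There is a number `V` such that for all `S`, `D` there is `E` with the following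
property for all large `N`. Let `H ≥ N^(1/3) log^E N`, and let `v i`, `i ∈ ι`, be ANY finite family of integers of size at
most `B N` such that off at most `log^S N` arcs of length `log^D N / H` on the circle the exponential sums `∑ i, e(α v_i)` are
at most `#ι / log^V N`. Then for all but at most `#ι / log^U N` members `v_i` of the family, for ALL moduli `k` with
`|k - v_i| ≤ log^W N` and `k ≥ N / log^κ N` and ALL real heights `X` with `k ≤ X ≤ k log^κ N` at once,
`|G(X,k) - (X log k - C_k X)| ≤ K X (λ(k) (k / X) ^ (1/3) + 1 / log^A N)`.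

**(2)** This holds for the values `f(m)`, `0 ≤ m < M`, of every integer polynomial of degree `d` whose leading coefficient is at
most `log ^ a N` in absolute value, if `M ^ d ≥ N^(1/3) log^E N` and the values are at most `B N` in absolute value.

**(3)** This holds for the integers `c + κ' y_i`, `|c| ≤ B N`, for every finite family `y i`, `i ∈ s`, of residues modulo `M`,
`N^(1/3) log^E N ≤ M ≤ N`, whose Fourier coefficients at the nonzero frequencies are at most `|s| / log ^ V M` (least residues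
`0 ≤ y_i < M` are meant). -/
theorem result : ∀ κ A : ℕ, ∃ K : ℝ, 0 < K ∧
    (∀ B W U : ℕ, ∃ V : ℕ, ∀ S D : ℕ, ∃ E N₀ : ℕ, ∀ N : ℕ, N₀ ≤ N → ∀ H : ℕ, (N : ℝ) ^ (1 / 3 : ℝ) * Real.log N ^ E ≤ H →
      ∀ (ι : Type) [Fintype ι] (v : ι → ℤ), (∀ i, |v i| ≤ B * N) → Narrow V S D N H v → AlmostAll K κ A W U N v) ∧
    (∀ d a B W U : ℕ, 1 ≤ d → ∃ E N₀ : ℕ, ∀ N : ℕ, N₀ ≤ N → ∀ f : ℤ[X], f.natDegree = d →
      |(f.leadingCoeff : ℝ)| ≤ Real.log N ^ a → ∀ M : ℕ, (N : ℝ) ^ (1 / 3 : ℝ) * Real.log N ^ E ≤ (M : ℝ) ^ d →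
      (∀ m : ℕ, m < M → |f.eval (m : ℤ)| ≤ B * N) → AlmostAll K κ A W U N (fun m : Fin M => f.eval ((m : ℕ) : ℤ))) ∧
    (∀ κ' : ℤ, κ' ≠ 0 → ∀ B W U : ℕ, ∃ V E N₀ : ℕ, ∀ N : ℕ, N₀ ≤ N → ∀ M : ℕ, ∀ [NeZero M],
      (N : ℝ) ^ (1 / 3 : ℝ) * Real.log N ^ E ≤ M → M ≤ N → ∀ (ι : Type) (s : Finset ι) (y : ι → ZMod M),
      Flat M (1 / Real.log M ^ V) s y → ∀ c : ℤ, |c| ≤ B * N →
      AlmostAll K κ A W U N (fun i : s => c + κ' * ((y i).val : ℤ))) := by
  intro κ A
  obtain ⟨K, hK, hmain⟩ := Pool.Agent.Run7.h27.FG.var_fam κ A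
  have main : ∀ B W U : ℕ, ∃ V : ℕ, ∀ S D : ℕ, ∃ E N₀ : ℕ, ∀ N : ℕ, N₀ ≤ N → ∀ H : ℕ,
      (N : ℝ) ^ (1 / 3 : ℝ) * Real.log N ^ E ≤ H → ∀ (ι : Type) [Fintype ι] (v : ι → ℤ), (∀ i, |v i| ≤ B * N) →
      Pool.Agent.Run7.h27.EH.Off V S D N H v → AlmostAll K κ A W U N v := by
    intro B W U
    obtain ⟨V, hV⟩ := hmain B W U
    refine ⟨V, fun S D => ?_⟩
    obtain ⟨E, N₀, h⟩ := hV S D
    exact ⟨E, N₀, fun N hN H hH ι _ v hv hoff => h N hN H hH ι v hv hoff⟩
  refine ⟨K, hK, fun B W U => main B W U, fun d a B W U hd => ?_, fun κ' hκ' B W U => ?_⟩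
  · obtain ⟨V, hV⟩ := main B W U
    obtain ⟨S, D, N₁, h1⟩ := Pool.Agent.Run7.h27.EH.poly_off d hd a V
    obtain ⟨E, N₀, h⟩ := hV (2 * S) D
    refine ⟨E, N₀ + N₁ + 3, fun N hN f hfd hlc M hM hval => ?_⟩
    have hL : 0 < Real.log N := Real.log_pos (by exact_mod_cast (by omega : 1 < N))
    have hN0 : (0 : ℝ) < N := by exact_mod_cast (by omega : 0 < N)
    have hpos : 0 < (N : ℝ) ^ (1 / 3 : ℝ) * Real.log N ^ E := by positivity
    have hM1 : 1 ≤ M := by
      by_contra hcon
      have : M = 0 := by omega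
      rw [this, Nat.cast_zero, zero_pow (by omega)] at hM
      linarith
    refine h N (by omega) (M ^ d) (by push_cast; exact hM) (Fin M) _ (fun m => hval m m.2)
      (Pool.Agent.Run7.h27.EH.OffR.off hL.le (h1 N (by omega) f hfd hlc M hM1 (M ^ d) (Nat.one_le_pow _ _ hM1)
        (by push_cast; exact le_rfl)))
  · obtain ⟨V, hV⟩ := main (B + κ'.natAbs) W U
    obtain ⟨N₁, h1⟩ := Pool.Agent.Run7.h27.EH.flat_off κ' hκ' V
    obtain ⟨E, N₀, h⟩ := hV (2 * 1) (V + 2)
    refine ⟨V + 3, E, N₀ + N₁ + 3, fun N hN M _ hM1 hM2 ι s y hf c hc => ?_⟩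
    have hL3 : 1 ≤ Real.log N := by
      rw [Real.le_log_iff_exp_le (by exact_mod_cast (by omega : 0 < N))]
      have : (3 : ℝ) ≤ N := by exact_mod_cast (by omega : 3 ≤ N)
      linarith [Real.exp_one_lt_d9]
    have hM3 : (N : ℝ) ^ (1 / 3 : ℝ) ≤ M := by
      refine le_trans ?_ hM1
      exact le_mul_of_one_le_right (by positivity) (one_le_pow₀ hL3)
    refine h N (by omega) M hM1 s _ (fun i => ?_)
      (Pool.Agent.Run7.h27.EH.OffR.off (by linarith) (h1 N (by omega) M hM3 hM2 ι s y hf c))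
    refine (abs_add_le _ _).trans ?_
    have h3 : (((y i).val : ℕ) : ℤ) ≤ N := by
      have := ZMod.val_lt (y i)
      exact_mod_cast (by omega : (y i).val ≤ N)
    have h4 : |κ' * ((y i).val : ℤ)| ≤ κ'.natAbs * N := by
      rw [abs_mul, Int.abs_eq_natAbs κ', abs_of_nonneg (by positivity)]
      exact mul_le_mul_of_nonneg_left h3 (by positivity)
    push_cast at h4 ⊢
    linarith

end Pool.Agent.Results.MP_5dd4bb_nt.VarianceShortFamilies
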